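import Pool.Agent.K3h46.HP.Stm6

/-! Exterior powers of a sum (brick ADDA, for helper46). -/

set_option autoImplicit false

open Finset

namespace Pool.Agent.K3h40.NC

open Pool.Agent.K3h46.NC

variable (M : TensorPowers)

/-- the antisymmetrisation -/
noncomputable def asym (N : ℕ) : M.H N :=
  ∑ σ : Equiv.Perm (Fin N), ((Equiv.Perm.sign σ : ℤ) : ℚ) • M.perm N σ

theorem asym_perm (N : ℕ) (ρ : Equiv.Perm (Fin N)) :
    asym M N * M.perm N ρ = ((Equiv.Perm.sign ρ : ℤ) : ℚ) • asym M N := by
  unfold asym
  rw [Finset.sum_mul, Finset.smul_sum]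
  rw [← Equiv.sum_comp (Equiv.mulRight ρ⁻¹)]
  apply Finset.sum_congr rfl
  intro σ _
  rw [Equiv.coe_mulRight, smul_mul_assoc, ← map_mul, inv_mul_cancel_right, smul_smul]
  congr 1
  rw [map_mul, Equiv.Perm.sign_inv, Units.val_mul, mul_comm]
  push_cast
  ring

theorem sgn_sq {N : ℕ} (τ : Equiv.Perm (Fin N)) :
    ((Equiv.Perm.sign τ : ℤ) : ℚ) * ((Equiv.Perm.sign τ : ℤ) : ℚ) = 1 := by
  rw [← Int.cast_mul, ← Units.val_mul, Int.units_mul_self]
  simp

theorem asym_emb {p K : ℕ} (s : Fin p ↪ Fin K) :
    asym M K * M.emb s (asym M p) = ((p.factorial : ℕ) : ℚ) • asym M K := by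
  have h1 : M.emb s (asym M p) = ∑ τ : Equiv.Perm (Fin p), ((Equiv.Perm.sign τ : ℤ) : ℚ) •
      M.perm K (τ.viaFintypeEmbedding s) := by
    unfold asym
    rw [map_sum]
    apply Finset.sum_congr rfl
    intro τ _
    rw [map_smul, M.emb_perm]
  rw [h1, Finset.mul_sum]
  have h2 : ∀ τ : Equiv.Perm (Fin p), asym M K * (((Equiv.Perm.sign τ : ℤ) : ℚ) •
      M.perm K (τ.viaFintypeEmbedding s)) = asym M K := by
    intro τ
    rw [mul_smul_comm, asym_perm, Equiv.Perm.viaFintypeEmbedding_sign, smul_smul, sgn_sq, one_smul]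
  rw [Finset.sum_congr rfl fun τ _ => h2 τ, Finset.sum_const, Finset.card_univ,
    Fintype.card_perm, Fintype.card_fin, Nat.cast_smul_eq_nsmul]

theorem comm_single {K : ℕ} (i j : Fin K) (hij : i ≠ j) (x y : M.H 1) :
    Commute (M.emb (single i) x) (M.emb (single j) y) :=
  M.comm (single i) (single j) (fun _ _ => hij) x y

theorem single_trans {p K : ℕ} (s : Fin p ↪ Fin K) (j : Fin p) :
    (single j).trans s = single (s j) := by
  ext i
  rfl

open Classical in
theorem rows_split {p K : ℕ} (s : Fin p ↪ Fin K) (c : Fin K → M.H 1) :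
    ∃ r : M.H K, M.rows c = M.emb s (M.rows fun j => c (s j)) * r := by
  let f : Fin K → M.H K := fun i => M.emb (single i) (c i)
  let L : List (Fin K) := (List.finRange K).filter fun i => i ∉ Set.range s
  have hperm : List.Perm (List.finRange K) ((List.finRange p).map s ++ L) := by
    rw [List.perm_ext_iff_of_nodup (List.nodup_finRange K)]
    · intro i
      simp only [List.mem_finRange, List.mem_append, List.mem_map, true_and, L, List.mem_filter,
        true_iff, decide_eq_true_eq]
      by_cases h : i ∈ Set.range s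
      · exact Or.inl h
      · exact Or.inr h
    · rw [List.nodup_append']
      refine ⟨(List.nodup_finRange p).map s.injective, (List.nodup_finRange K).filter _, ?_⟩
      intro i hi hi'
      rw [List.mem_map] at hi
      obtain ⟨j, _, rfl⟩ := hi
      simp only [L, List.mem_filter, decide_eq_true_eq] at hi'
      exact hi'.2 ⟨j, rfl⟩
  have hrows : M.rows c = ((List.finRange K).map f).prod := by
    unfold TensorPowers.rows
    rw [List.ofFn_eq_map]
  have h1 : ((List.finRange K).map f).prod = (((List.finRange p).map s ++ L).map f).prod := by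
    refine (hperm.map f).prod_eq' ?_
    rw [List.pairwise_map]
    refine (List.nodup_finRange K).imp ?_
    intro i j hij
    exact comm_single M i j hij _ _
  refine ⟨(L.map f).prod, ?_⟩
  rw [hrows, h1, List.map_append, List.prod_append, List.map_map]
  congr 1
  unfold TensorPowers.rows
  rw [map_list_prod, List.ofFn_eq_map, List.map_map]
  congr 1
  apply List.map_congr_left
  intro j _
  show M.emb (single (s j)) (c (s j)) = M.emb s (M.emb (single j) (c (s j)))
  rw [M.emb_trans, single_trans]

theorem key {p K : ℕ} (s : Fin p ↪ Fin K) (c : Fin K → M.H 1) (a : M.H 1)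
    (hc : ∀ j, c (s j) = a) (ha : M.alt a p = 0) : asym M K * M.rows c = 0 := by
  obtain ⟨r, hr⟩ := rows_split M s c
  have h0 : asym M p * M.rows (fun j => c (s j)) = 0 := by
    have : (fun j => c (s j)) = fun _ => a := funext hc
    rw [this]
    exact ha
  have h1 : ((p.factorial : ℕ) : ℚ) • (asym M K * M.rows c) = 0 := by
    rw [← smul_mul_assoc, ← asym_emb M s, hr, mul_assoc, ← mul_assoc (M.emb s (asym M p)),
      ← map_mul, h0, map_zero, zero_mul, mul_zero]
  have h2 : ((p.factorial : ℕ) : ℚ) ≠ 0 := by exact_mod_cast p.factorial_ne_zero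
  exact (smul_eq_zero.1 h1).resolve_left h2

theorem rows_add {K : ℕ} (a b : M.H 1) : M.rows (fun _ : Fin K => a + b) =
    ∑ S : Finset (Fin K), M.rows (S.piecewise (fun _ => a) fun _ => b) := by
  have h1 := (MultilinearMap.mkPiAlgebraFin ℚ K (M.H K)).map_add_univ
    (fun i => M.emb (single i) a) (fun i => M.emb (single i) b)
  simp only [MultilinearMap.mkPiAlgebraFin_apply] at h1
  have h2 : M.rows (fun _ : Fin K => a + b) = (List.ofFn ((fun i => M.emb (single i) a) +
      fun i => M.emb (single i) b)).prod := by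
    unfold TensorPowers.rows
    congr 2
    funext i
    rw [map_add]
    rfl
  rw [h2, h1]
  apply Finset.sum_congr rfl
  intro S _
  unfold TensorPowers.rows
  congr 2
  funext i
  by_cases hi : i ∈ S
  · rw [Finset.piecewise_eq_of_mem _ _ _ hi, Finset.piecewise_eq_of_mem _ _ _ hi]
  · rw [Finset.piecewise_eq_of_notMem _ _ _ hi, Finset.piecewise_eq_of_notMem _ _ _ hi]

theorem exists_emb {K : ℕ} (p : ℕ) (S : Finset (Fin K)) (h : p ≤ S.card) :
    ∃ s : Fin p ↪ Fin K, ∀ j, s j ∈ S := by
  obtain ⟨e⟩ : Nonempty (Fin p ↪ S) := Function.Embedding.nonempty_of_card_le (by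
    rw [Fintype.card_fin, Fintype.card_coe]
    exact h)
  exact ⟨e.trans (Function.Embedding.subtype _), fun j => (e j).2⟩

/-- **ADDA**. -/
theorem t_AddA : StmAddA := by
  intro M a b p q ha hb
  show asym M (p + q) * M.rows (fun _ => a + b) = 0
  rw [rows_add, Finset.mul_sum]
  apply Finset.sum_eq_zero
  intro S _
  by_cases h : p ≤ S.card
  · obtain ⟨s, hs⟩ := exists_emb p S h
    exact key M s _ a (fun j => Finset.piecewise_eq_of_mem _ _ _ (hs j)) ha
  · have hq : q ≤ Sᶜ.card := by
      rw [Finset.card_compl, Fintype.card_fin]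
      omega
    obtain ⟨s, hs⟩ := exists_emb q Sᶜ hq
    exact key M s _ b (fun j => Finset.piecewise_eq_of_notMem _ _ _
      (Finset.mem_compl.1 (hs j))) hb

end Pool.Agent.K3h40.NC
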