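import Pool.Agent.K3h40.NC.AddA

/-! Symmetric powers of a sum (for helper46). -/

set_option autoImplicit false

open Finset

namespace Pool.Agent.K3h40.NC

open Pool.Agent.K3h46.NC

variable (M : TensorPowers)

/-- the symmetrisation -/
noncomputable def symm (N : ℕ) : M.H N := ∑ σ : Equiv.Perm (Fin N), M.perm N σ

theorem symm_perm (N : ℕ) (ρ : Equiv.Perm (Fin N)) : symm M N * M.perm N ρ = symm M N := by
  unfold symm
  rw [Finset.sum_mul, ← Equiv.sum_comp (Equiv.mulRight ρ⁻¹)]
  apply Finset.sum_congr rfl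
  intro σ _
  rw [Equiv.coe_mulRight, ← map_mul, inv_mul_cancel_right]

theorem symm_emb {p K : ℕ} (s : Fin p ↪ Fin K) :
    symm M K * M.emb s (symm M p) = ((p.factorial : ℕ) : ℚ) • symm M K := by
  have h1 : M.emb s (symm M p) = ∑ τ : Equiv.Perm (Fin p),
      M.perm K (τ.viaFintypeEmbedding s) := by
    unfold symm
    rw [map_sum]
    apply Finset.sum_congr rfl
    intro τ _
    rw [M.emb_perm]
  rw [h1, Finset.mul_sum, Finset.sum_congr rfl fun τ _ => symm_perm M K _, Finset.sum_const,
    Finset.card_univ, Fintype.card_perm, Fintype.card_fin, Nat.cast_smul_eq_nsmul]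

theorem keyS {p K : ℕ} (s : Fin p ↪ Fin K) (c : Fin K → M.H 1) (a : M.H 1)
    (hc : ∀ j, c (s j) = a) (ha : M.sym a p = 0) : symm M K * M.rows c = 0 := by
  obtain ⟨r, hr⟩ := rows_split M s c
  have h0 : symm M p * M.rows (fun j => c (s j)) = 0 := by
    have : (fun j => c (s j)) = fun _ => a := funext hc
    rw [this]
    exact ha
  have h1 : ((p.factorial : ℕ) : ℚ) • (symm M K * M.rows c) = 0 := by
    rw [← smul_mul_assoc, ← symm_emb M s, hr, mul_assoc, ← mul_assoc (M.emb s (symm M p)),
      ← map_mul, h0, map_zero, zero_mul, mul_zero]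
  have h2 : ((p.factorial : ℕ) : ℚ) ≠ 0 := by exact_mod_cast p.factorial_ne_zero
  exact (smul_eq_zero.1 h1).resolve_left h2

/-- **ADDS**. -/
theorem t_AddS : StmAddS := by
  intro M a b p q ha hb
  show symm M (p + q) * M.rows (fun _ => a + b) = 0
  rw [rows_add, Finset.mul_sum]
  apply Finset.sum_eq_zero
  intro S _
  by_cases h : p ≤ S.card
  · obtain ⟨s, hs⟩ := exists_emb p S h
    exact keyS M s _ a (fun j => Finset.piecewise_eq_of_mem _ _ _ (hs j)) ha
  · have hq : q ≤ Sᶜ.card := by
      rw [Finset.card_compl, Fintype.card_fin]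
      omega
    obtain ⟨s, hs⟩ := exists_emb q Sᶜ hq
    exact keyS M s _ b (fun j => Finset.piecewise_eq_of_notMem _ _ _
      (Finset.mem_compl.1 (hs j))) hb

end Pool.Agent.K3h40.NC
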